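import Pool.Agent.H477.O.Stm6
import Pool.Graph.R_seed8.H370R2.Local

set_option autoImplicit false

/-!
# S_QLAN: the one-sided Landau lemma (helper4 for helper477)

Copy of `H370.Loc.landau` with real parts.
-/

open Complex Filter Topology Metric Set MeasureTheory

namespace Pool.Agent.H4.Q

open H370.Loc

lemma Pf_re {s : Multiset ℂ} {z : ℂ} (h0 : ∀ ρ ∈ s, z ≠ ρ) (h : ∀ ρ ∈ s, ρ.re ≤ z.re) :
    0 ≤ (logDeriv (Pf s) z).re := by
  induction s using Multiset.induction_on with
  | empty =>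
    have : Pf 0 = fun _ => (1 : ℂ) := funext Pf_zero
    rw [this]
    simp [logDeriv]
  | cons ρ s ih =>
    have : Pf (ρ ::ₘ s) = fun z => (z - ρ) * Pf s z := funext (Pf_cons ρ s)
    have hz : z - ρ ≠ 0 := sub_ne_zero.2 (h0 ρ (Multiset.mem_cons_self ρ s))
    have hP : Pf s z ≠ 0 := Pf_ne_zero fun ρ' h' => h0 ρ' (Multiset.mem_cons_of_mem h')
    have e1 : logDeriv (fun z => (z - ρ) * Pf s z) z =
        logDeriv (fun z => z - ρ) z + logDeriv (Pf s) z :=
      logDeriv_mul z hz hP (differentiableAt_id.sub_const ρ) (Pf_diff s z)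
    have e2 : logDeriv (fun z => z - ρ) z = 1 / (z - ρ) := by
      rw [logDeriv_apply]
      congr 1
      simp
    have h3 := ih (fun ρ' h' => h0 ρ' (Multiset.mem_cons_of_mem h'))
      fun ρ' h' => h ρ' (Multiset.mem_cons_of_mem h')
    have h4 : 0 ≤ (1 / (z - ρ)).re := by
      rw [one_div, Complex.inv_re, Complex.sub_re]
      exact div_nonneg (sub_nonneg.2 (h ρ (Multiset.mem_cons_self ρ s))) (Complex.normSq_nonneg _)
    rw [this, e1, Complex.add_re, e2]
    exact add_nonneg h4 h3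

theorem qlan : Pool.Agent.H477.O.S_QLAN := by
  intro f c r r1 r2 R M hr2 h21 h1r hrR hRr hM hMf hf hc hb z hz hfz hre
  have hr : 0 < r := by linarith
  have hR : 0 < R := by linarith
  obtain ⟨s, g, hs, hg, hfg, hg0, hcard⟩ := extract hr hrR hM hf hc hb
  have hzr : z ∈ closedBall c r := closedBall_subset_closedBall (by linarith) hz
  have hzR : z ∈ closedBall c R := closedBall_subset_closedBall hrR.le hzr
  have hcr : c ∈ closedBall c r := mem_closedBall_self hr.le
  have hcR : c ∈ closedBall c R := mem_closedBall_self hR.le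
  have hne : ∀ ρ ∈ s, z ≠ ρ := by
    intro ρ hρ he
    apply hfz
    rw [he]
    exact (hs ρ hρ).2
  have hPz : Pf s z ≠ 0 := Pf_ne_zero hne
  have hfc : 0 < ‖f c‖ := norm_pos_iff.2 hc
  set n := Multiset.card s with hn
  have hlogM : 0 ≤ Real.log (M / ‖f c‖) := Real.log_nonneg (by rw [le_div_iff₀ hfc]; linarith)
  have hRr0 : 0 < R - r := by linarith
  have hq : 1 ≤ r / (R - r) := by rw [le_div_iff₀ hRr0]; linarith
  have hlogq : 0 ≤ Real.log (r / (R - r)) := Real.log_nonneg hq
  -- bounds for g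
  have hgsphere : ∀ w ∈ sphere c R, ‖g w‖ ≤ M / (R - r) ^ n := by
    intro w hw
    have hwR := sphere_subset_closedBall hw
    have h1 : (R - r) ^ n ≤ ‖Pf s w‖ := Pf_norm_ge hRr0.le fun ρ hρ => by
      have h2 := (hs ρ hρ).1
      rw [mem_closedBall, dist_eq_norm] at h2
      rw [mem_sphere, dist_eq_norm] at hw
      have h3 : ‖w - c‖ ≤ ‖w - ρ‖ + ‖ρ - c‖ := by
        calc ‖w - c‖ = ‖(w - ρ) + (ρ - c)‖ := by congr 1; ring
          _ ≤ _ := norm_add_le _ _
      linarith
    rw [le_div_iff₀ (by positivity)]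
    calc ‖g w‖ * (R - r) ^ n ≤ ‖g w‖ * ‖Pf s w‖ := mul_le_mul_of_nonneg_left h1 (norm_nonneg _)
      _ = ‖f w‖ := by rw [hfg w, norm_mul, mul_comm]
      _ ≤ M := hb w hwR
  have hgball : ∀ w ∈ closedBall c R, ‖g w‖ ≤ M / (R - r) ^ n := by
    intro w hw
    refine Complex.norm_le_of_forall_mem_frontier_norm_le (U := ball c R) isBounded_ball ?_ ?_ ?_
    · apply DifferentiableOn.diffContOnCl
      rw [closure_ball c hR.ne']
      exact fun x hx => (hg x hx).differentiableAt.differentiableWithinAt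
    · intro x hx
      rw [frontier_ball c hR.ne'] at hx
      exact hgsphere x hx
    · rwa [closure_ball c hR.ne']
  have hgc : ‖f c‖ / r ^ n ≤ ‖g c‖ := by
    rw [div_le_iff₀ (by positivity)]
    have h1 : ‖Pf s c‖ ≤ r ^ n := Pf_norm_le fun ρ hρ => by
      have h2 := (hs ρ hρ).1
      rw [mem_closedBall, dist_eq_norm, norm_sub_rev] at h2
      exact h2
    calc ‖f c‖ = ‖g c‖ * ‖Pf s c‖ := by rw [hfg c, norm_mul, mul_comm]
      _ ≤ ‖g c‖ * r ^ n := mul_le_mul_of_nonneg_left h1 (norm_nonneg _)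
  set B : ℝ := Real.log (M / ‖f c‖) + n * Real.log (r / (R - r)) with hB
  have hB0 : 0 ≤ B := by positivity
  have hexpB : Real.exp B = M / ‖f c‖ * (r / (R - r)) ^ n := by
    rw [hB, Real.exp_add, Real.exp_log (by positivity), Real.exp_nat_mul,
      Real.exp_log (by positivity)]
  have hgb : ∀ w ∈ closedBall c r, ‖g w‖ ≤ Real.exp B * ‖g c‖ := by
    intro w hw
    refine (hgball w (closedBall_subset_closedBall hrR.le hw)).trans ?_
    rw [hexpB]
    calc M / (R - r) ^ n = M / ‖f c‖ * (r / (R - r)) ^ n * (‖f c‖ / r ^ n) := by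
          rw [div_pow]; field_simp
      _ ≤ _ := mul_le_mul_of_nonneg_left hgc (by positivity)
  have hlg := logDeriv_zero_free hr2 h21 h1r hB0
    (hg.mono (closedBall_subset_closedBall hrR.le)) hg0 hgb hz
  have heq : logDeriv f z = logDeriv (Pf s) z + logDeriv g z := by
    have h1 : f = fun w => Pf s w * g w := funext hfg
    conv_lhs => rw [h1]
    exact logDeriv_mul z hPz (hg0 z hzr) (Pf_diff s z) (hg z hzR).differentiableAt
  have hre1 : 0 ≤ (logDeriv (Pf s) z).re :=
    Pf_re hne fun ρ hρ => hre ρ (hs ρ hρ).1 (hs ρ hρ).2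
  have hre2 : -‖logDeriv g z‖ ≤ (logDeriv g z).re :=
    (abs_le.1 (Complex.abs_re_le_norm (logDeriv g z))).1
  have h7 : 2 * (B + 1) * r1 / (r - r1) / (r1 - r2) ≤
      2 * (Real.log (M / ‖f c‖) + Real.log (M / ‖f c‖) / Real.log (R / r) *
        Real.log (r / (R - r)) + 1) * r1 / (r - r1) / (r1 - r2) := by
    have h8 : B ≤ Real.log (M / ‖f c‖) + Real.log (M / ‖f c‖) / Real.log (R / r) *
          Real.log (r / (R - r)) := by
      rw [hB]
      have := mul_le_mul_of_nonneg_right hcard hlogq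
      linarith
    have h9 : 0 < r - r1 := by linarith
    have h10 : 0 < r1 - r2 := by linarith
    have h11 : 0 < r1 := by linarith
    gcongr
  rw [heq, Complex.add_re]
  linarith

end Pool.Agent.H4.Q
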